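import Pool.Agent.H43.TC.Targets

/-!
# Walks depend only on the colours of the near layers (board tc_modules, module LOC)
-/

set_option autoImplicit false

namespace Pool.Agent.H43.TC

theorem loc : T_LOC := by
  intro k N H _ π i₀ c c' b t
  induction t with
  | zero =>
    intro x hx
    have h0 : c x = c' (π x) := hx x ⟨0, by simp, by simp⟩
    simp only [walks, h0]
  | succ t ih =>
    intro x hx
    have h0 : c x = c' (π x) := hx x ⟨0, by simp; positivity, by simp⟩
    simp only [walks, h0]
    by_cases hb : c' (π x) = b
    · rw [if_pos hb, if_pos hb]
      refine Finset.sum_congr rfl fun i _ => ?_
      have h1 : walks e c b t (x + e i) = walks (fun i => π (e i)) c' b t (π (x + e i)) := by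
        apply ih
        rintro y ⟨j, hj, hy⟩
        apply hx
        by_cases hi : i₀ = i
        · refine ⟨j + 1, ?_, ?_⟩
          · have := abs_le.1 hj
            rw [abs_le]
            push_cast
            constructor <;> linarith [this.1, this.2]
          · rw [hy, hi]
            simp [e]
            ring
        · refine ⟨j, ?_, ?_⟩
          · push_cast
            linarith
          · rw [hy]
            simp [e, hi]
      have h2 : walks e c b t (x - e i) = walks (fun i => π (e i)) c' b t (π (x - e i)) := by
        apply ih
        rintro y ⟨j, hj, hy⟩
        apply hx
        by_cases hi : i₀ = i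
        · refine ⟨j - 1, ?_, ?_⟩
          · have := abs_le.1 hj
            rw [abs_le]
            push_cast
            constructor <;> linarith [this.1, this.2]
          · rw [hy, hi]
            simp [e]
            ring
        · refine ⟨j, ?_, ?_⟩
          · push_cast
            linarith
          · rw [hy]
            simp [e, hi]
      rw [h1, h2, map_add, map_sub]
    · rw [if_neg hb, if_neg hb]

end Pool.Agent.H43.TC
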